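import Pool.Agent.N641.VB.Stm3
import Pool.Agent.N227.VB.ST2

set_option autoImplicit false

/-!
# Project VB: ST4 (helper293)

Countably many types of the Boolean algebras with a measure which are interpreted in the models of a
theory without perfectly many models. After the part ST2 of helper227.
-/

namespace Pool.Agent.N293.VB.ST4

open Set MeasureTheory FirstOrder FirstOrder.Language
open Pool.Agent.N641.VB Pool.Agent.N227.VB.ST2

variable {L : FirstOrder.Language.{0, 0}} {M : Type} {n : ℕ}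

theorem leS_dec1 {φ : L.Formula (Fin n ⊕ Fin 2)} {ψ : M → L.Formula (Fin n ⊕ Fin 1)}
    {S : L.Structure ℕ} {p : Fin n → ℕ} {bo : BooleanAlgebra ℕ} {mu : ℕ → M} {f : ℕ → ℕ}
    (h : Dec1 S p φ ψ bo mu f) (x y : ℕ) : leS φ S p x y ↔ bo.le (f x) (f y) :=
  h.le ![x, y]

theorem muS_dec1 {φ : L.Formula (Fin n ⊕ Fin 2)} {ψ : M → L.Formula (Fin n ⊕ Fin 1)}
    {S : L.Structure ℕ} {p : Fin n → ℕ} {bo : BooleanAlgebra ℕ} {mu : ℕ → M} {f : ℕ → ℕ}
    (h : Dec1 S p φ ψ bo mu f) (d : M) (x : ℕ) : muS d ψ S p x = mu (f x) := by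
  have e : vs ψ S p x = {mu (f x)} := by
    ext c
    refine (h.val c ![x]).trans ?_
    rw [mem_singleton_iff]
    exact eq_comm
  unfold muS
  rw [e, sg_eq]

theorem dif_surj {le le' : ℕ → ℕ → Prop} {f : ℕ → ℕ} (hf : Function.Surjective f)
    (h : ∀ x y, le x y ↔ le' (f x) (f y)) (a b c : ℕ) :
    Dif le a b c ↔ Dif le' (f a) (f b) (f c) := by
  unfold Dif
  rw [h, h]
  refine and_congr_right fun _ => and_congr_right fun _ => ?_
  constructor
  · rintro ⟨h1, h2⟩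
    refine ⟨fun d => ?_, fun d => ?_⟩
    · obtain ⟨d, rfl⟩ := hf d
      intro hd hd' g
      obtain ⟨g, rfl⟩ := hf g
      exact (h _ _).1 (h1 d ((h _ _).2 hd) ((h _ _).2 hd') g)
    · obtain ⟨d, rfl⟩ := hf d
      intro hd hd'
      exact (h _ _).1 (h2 d ((h _ _).2 hd) ((h _ _).2 hd'))
  · rintro ⟨h1, h2⟩
    refine ⟨fun d hd hd' g => ?_, fun d hd hd' => ?_⟩
    · exact (h _ _).2 (h1 (f d) ((h _ _).1 hd) ((h _ _).1 hd') (f g))
    · exact (h _ _).2 (h2 (f d) ((h _ _).1 hd) ((h _ _).1 hd'))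

theorem tpc_surj {le le' : ℕ → ℕ → Prop} {mu mu' : ℕ → M} {f : ℕ → ℕ}
    (hf : Function.Surjective f) (h : ∀ x y, le x y ↔ le' (f x) (f y))
    (h2 : ∀ x, mu x = mu' (f x)) : ∀ k a, tpc le mu k a = tpc le' mu' k (f a)
  | 0, a => by
    refine propext ⟨fun h1 b => ?_, fun h1 b => (h _ _).2 (h1 (f b))⟩
    obtain ⟨b, rfl⟩ := hf b
    exact (h _ _).1 (h1 b)
  | k + 1, a => by
    refine Prod.ext (h2 a) (Set.ext fun q => ?_)
    constructor
    · rintro ⟨b, c, h3, rfl⟩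
      exact ⟨f b, f c, (dif_surj hf h a b c).1 h3,
        by rw [tpc_surj hf h h2 k b, tpc_surj hf h h2 k c]⟩
    · rintro ⟨b, c, h3, rfl⟩
      obtain ⟨b, rfl⟩ := hf b
      obtain ⟨c, rfl⟩ := hf c
      exact ⟨b, c, (dif_surj hf h a b c).2 h3,
        by rw [tpc_surj hf h h2 k b, tpc_surj hf h h2 k c]⟩

theorem ST4 (SIL : S_SIL) (MEA : S_MEA) : S_ST4 := by
  intro L hL T M _ _ n φ ψ hP
  have hj : ∀ k, ∃ j : TP M k → ℕ, Function.Injective j := fun k => Countable.exists_injective_nat _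
  choose j hj using hj
  let V : L.Structure ℕ → ℕ → (ℕ → Bool) := fun S m =>
    cd j (fun k => tpc (leS φ S (dm n m).1) (muS 0 ψ S (dm n m).1) k (dm n m).2)
  have hV : ∀ m k, @MeasurableSet _ (SM L) {S : L.Structure ℕ | V S m k = true} := by
    intro m i
    let _ := SM L
    have e1 : {S : L.Structure ℕ | V S m i = true} =
        {S : L.Structure ℕ | j i.unpair.1 (tpc (leS φ S (dm n m).1) (muS 0 ψ S (dm n m).1)
          i.unpair.1 (dm n m).2) = i.unpair.2} := by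
      ext S
      exact decide_eq_true_iff
    rw [e1]
    by_cases hσ : ∃ σ, j i.unpair.1 σ = i.unpair.2
    · obtain ⟨σ, hσ⟩ := hσ
      have e2 : {S : L.Structure ℕ | j i.unpair.1 (tpc (leS φ S (dm n m).1)
          (muS 0 ψ S (dm n m).1) i.unpair.1 (dm n m).2) = i.unpair.2} =
          {S : L.Structure ℕ | tpc (leS φ S (dm n m).1) (muS 0 ψ S (dm n m).1)
            i.unpair.1 (dm n m).2 = σ} := by
        ext S
        rw [mem_ofPred_eq, mem_ofPred_eq, ← hσ]
        exact (hj _).eq_iff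
      rw [e2]
      exact (MEA M).2 (L.Structure ℕ) (fun S => leS φ S (dm n m).1)
        (fun S => muS 0 ψ S (dm n m).1) (fun a b => meas_le φ _ a b)
        (fun a v => meas_mu 0 ψ _ a v) _ _ σ
    · have e2 : {S : L.Structure ℕ | j i.unpair.1 (tpc (leS φ S (dm n m).1)
          (muS 0 ψ S (dm n m).1) i.unpair.1 (dm n m).2) = i.unpair.2} = ∅ := by
        ext S
        exact iff_of_false (fun h => hσ ⟨_, h⟩) (notMem_empty S)
      rw [e2]
      exact MeasurableSet.empty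
  have hI : ∀ S S' : L.Structure ℕ, Nonempty (@FirstOrder.Language.Equiv L ℕ ℕ S S') →
      ∀ m, ∃ m', V S' m' = V S m := by
    rintro S S' ⟨e⟩ m
    obtain ⟨m', hm'⟩ := dm_surj n (fun i => tE S S' e ((dm n m).1 i), tE S S' e (dm n m).2)
    refine ⟨m', ?_⟩
    show cd j _ = cd j _
    congr 1
    funext k
    rw [hm']
    exact tpc_iso (tE S S' e) (fun x y => leS_iso e _ x y) (fun x => muS_iso 0 e _ x) k _
  have hc := SIL L hL T V hV hI hP
  refine Set.MapsTo.countable_of_injOn (f := cd j) ?_ (cd_inj hj).injOn hc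
  rintro t ⟨S, p, bo, mu, f, a, hT, hD, hA, rfl⟩
  obtain ⟨x, rfl⟩ := hD.surj a
  obtain ⟨m, hm⟩ := dm_surj n (p, x)
  refine ⟨S, hT, m, ?_⟩
  show cd j _ = cd j _
  congr 1
  funext k
  rw [hm]
  show tpc (leS φ S p) (muS 0 ψ S p) k x = _
  rw [tpc_surj (le' := bo.le) (mu' := mu) hD.surj (leS_dec1 hD) (muS_dec1 hD 0) k x]
  exact (MEA M).1 bo mu k (f x)

end Pool.Agent.N293.VB.ST4
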